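import Pool.Agent.H12.BX.PDiv
import Pool.Agent.H15.SC.TargetsX

/-!
The centre of a valuation which is not a prime divisor is small (MP_f2954d_ag, module XG).
-/

namespace Pool.Agent.H18.KN

open SC Set

/-- a surjection of domains with nonzero kernel decreases the transcendence degree -/
theorem trdeg_add_one_le {k B C : Type} [Field k] [CommRing B] [IsDomain B] [CommRing C]
    [IsDomain C] [Algebra k B] [Algebra k C] (f : B →ₐ[k] C) (hf : Function.Surjective f) {t : B}
    (ht : t ≠ 0) (hft : f t = 0) : Algebra.trdeg k C + 1 ≤ Algebra.trdeg k B := by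
  obtain ⟨ι, y, hy⟩ := exists_isTranscendenceBasis' k C
  rw [← hy.cardinalMk_eq_trdeg]
  choose x hx using fun i => hf (y i)
  have hxy : (f : B → C) ∘ x = y := funext hx
  have hxi : AlgebraicIndependent k x := by
    apply AlgebraicIndependent.of_comp f
    rw [hxy]; exact hy.1
  have htr : Transcendental (Algebra.adjoin k (range x)) t := by
    intro halg
    obtain ⟨q, hq0, hq⟩ := halg.exists_nonzero_coeff_and_aeval_eq_zero
      (mem_nonZeroDivisors_of_ne_zero ht)
    apply hq0
    have h1 : f (algebraMap (Algebra.adjoin k (range x)) B (q.coeff 0)) = 0 := by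
      rw [Polynomial.aeval_eq_sum_range, Finset.sum_range_succ'] at hq
      have h2 := congrArg f hq
      rw [map_add, map_sum, map_zero] at h2
      have h3 : ∀ i ∈ Finset.range q.natDegree, f (q.coeff (i + 1) • t ^ (i + 1)) = 0 := by
        intro i _
        rw [Algebra.smul_def, map_mul, map_pow, hft]
        simp
      rw [Finset.sum_eq_zero h3, zero_add, pow_zero, Algebra.smul_def, mul_one] at h2
      exact h2
    obtain ⟨p, hp⟩ : ∃ p : MvPolynomial ι k, MvPolynomial.aeval x p = (q.coeff 0 : B) := by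
      have h6 : ∀ z ∈ Algebra.adjoin k (range x), ∃ p : MvPolynomial ι k,
          MvPolynomial.aeval x p = z := by
        intro z hz
        rw [Algebra.adjoin_range_eq_range_aeval] at hz
        exact hz
      exact h6 _ (q.coeff 0).2
    have h4 : MvPolynomial.aeval y p = 0 := by
      rw [← h1]
      change _ = f (q.coeff 0 : B)
      rw [← hp, ← hxy]
      have h7 : (f.comp (MvPolynomial.aeval x)) = MvPolynomial.aeval (f ∘ x) := by
        rw [MvPolynomial.comp_aeval]; rfl
      rw [← h7]
      rfl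
    have h5 : p = 0 := (AlgebraicIndependent.eq_zero_of_aeval_eq_zero hy.1) p h4
    apply Subtype.ext
    rw [← hp, h5, map_zero]
    rfl
  have hopt := (hxi.option_iff_transcendental t).mpr htr
  have := hopt.cardinalMk_le_trdeg
  rwa [Cardinal.mk_option] at this

open scoped IntermediateField.algebraAdjoinAdjoin in
/-- the transcendence degree of a field generated by a set -/
theorem trdeg_adjoin {F E : Type} [Field F] [Field E] [Algebra F E] (s : Set E) :
    Algebra.trdeg F (IntermediateField.adjoin F s) = Algebra.trdeg F (Algebra.adjoin F s) := by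
  rw [← trdeg_add_eq F (Algebra.adjoin F s) (A := IntermediateField.adjoin F s),
        (trdeg_eq_zero_iff (R := Algebra.adjoin F s) (A := IntermediateField.adjoin F s)).2 inferInstance,
    add_zero]

open Pool.Agent.H12.BX in
theorem xg : T_XG := by
  intro K _ _ N n w hX v hv i hi h
  have hnn : NN v w i := h
  have hnoeth := chart_noetherian hX hi
  have hc1 : (centre hnn).height ≠ 1 := fun hh => hv (isPrimeDivisor_of_height hX hi hnn hh)
  have hc0 : (centre hnn).height ≠ 0 := by
    rw [ne_eq, Ideal.height_eq_zero_iff_eq_bot]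
    exact centre_ne_bot hX hi hnn
  have hc2 : ¬ (centre hnn).height ≤ ((1 : ℕ) : ℕ∞) := by
    intro hle
    have h1 : 1 ≤ (centre hnn).height := Order.one_le_iff_ne_zero.2 hc0
    exact hc1 (le_antisymm (by exact_mod_cast hle) h1)
  rw [Ideal.height_le_iff] at hc2
  push Not at hc2
  obtain ⟨Q, hQ, hlt, hQh⟩ := hc2
  have hQ0 : Q ≠ ⊥ := by
    rintro rfl
    rw [Ideal.height_bot] at hQh
    norm_num at hQh
  obtain ⟨t, htQ, ht0⟩ := Submodule.exists_mem_ne_zero_of_ne_bot hQ0
  obtain ⟨s, hsc, hsQ⟩ := SetLike.exists_of_lt hlt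
  have hcp := centre_isPrime hnn
  -- transcendence degrees
  have e1 : Algebra.trdeg ℂ (chart w i ⧸ Q) + 1 ≤ Algebra.trdeg ℂ (chart w i) :=
    trdeg_add_one_le (Ideal.Quotient.mkₐ ℂ Q) (Ideal.Quotient.mkₐ_surjective ℂ Q) ht0
      (Ideal.Quotient.eq_zero_iff_mem.2 htQ)
  have e2 : Algebra.trdeg ℂ (chart w i ⧸ centre hnn) + 1 ≤ Algebra.trdeg ℂ (chart w i ⧸ Q) := by
    refine trdeg_add_one_le (Ideal.Quotient.factorₐ ℂ hlt.le)
      (Ideal.Quotient.factor_surjective hlt.le) (t := Ideal.Quotient.mk Q s) ?_ ?_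
    · rwa [ne_eq, Ideal.Quotient.eq_zero_iff_mem]
    · exact Ideal.Quotient.eq_zero_iff_mem.2 hsc
  have e3 : Algebra.trdeg ℂ (chart w i) ≤ n := by
    rw [← hX.dim]
    exact trdeg_le_of_injective (chart w i).val Subtype.val_injective
  -- the reduction
  let ψ : chart w i →ₐ[ℂ] v.Res :=
    { toFun := fun a => v.red a
      map_one' := v.red_one
      map_mul' := fun a b => v.red_mul (h a a.2) (h b b.2)
      map_zero' := v.red_zero
      map_add' := fun a b => v.red_add (h a a.2) (h b b.2)
      commutes' := fun c => v.red_algebraMap c }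
  have hψ : ∀ a, ψ a = 0 ↔ a ∈ centre hnn := by
    intro a
    rw [mem_centre]
    exact v.red_eq_zero_iff (h a a.2)
  refine ⟨IntermediateField.adjoin ℂ (range ψ), fun a ha =>
    IntermediateField.subset_adjoin _ _ ⟨⟨a, ha⟩, rfl⟩, ?_⟩
  have e4 : Algebra.trdeg ℂ (IntermediateField.adjoin ℂ (range ψ)) ≤
      Algebra.trdeg ℂ (chart w i ⧸ centre hnn) := by
    rw [trdeg_adjoin]
    let g : (chart w i ⧸ centre hnn) →ₐ[ℂ] Algebra.adjoin ℂ (range ψ) :=
      Ideal.Quotient.liftₐ (centre hnn)
        (ψ.codRestrict (Algebra.adjoin ℂ (range ψ)) fun a => Algebra.subset_adjoin ⟨a, rfl⟩)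
        (fun a ha => Subtype.ext ((hψ a).2 ha))
    have hg : Function.Surjective g := by
      rintro ⟨y, hy⟩
      have hy' : y ∈ ψ.range := by
        have : Algebra.adjoin ℂ (range ψ) ≤ ψ.range := Algebra.adjoin_le (fun z hz => hz)
        exact this hy
      obtain ⟨a, ha⟩ := hy'
      exact ⟨Ideal.Quotient.mk _ a, Subtype.ext ha⟩
    exact trdeg_le_of_surjective g hg
  calc Algebra.trdeg ℂ (IntermediateField.adjoin ℂ (range ψ)) + 2
      ≤ Algebra.trdeg ℂ (chart w i ⧸ centre hnn) + 2 := by gcongr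
    _ = Algebra.trdeg ℂ (chart w i ⧸ centre hnn) + 1 + 1 := by
        rw [add_assoc]; norm_num
    _ ≤ Algebra.trdeg ℂ (chart w i ⧸ Q) + 1 := by gcongr
    _ ≤ Algebra.trdeg ℂ (chart w i) := e1
    _ ≤ n := e3

end Pool.Agent.H18.KN
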