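import Pool.Agent.H18.KN.XG

/-!
The index of globally generated divisors vanishes at valuations which are not prime divisors
(MP_f2954d_ag, module XS).
-/

namespace Pool.Agent.H18.KN

open SC Set

theorem xs (hXA : T_XA) (hXL1 : T_XL1) (hXF : T_XF) (hIZ : T_IZ) (hG2s : T_G2s) : T_XS := by
  intro K _ _ N n w hX J _ S hJ hS v hv
  obtain ⟨i, hi, p, hp, hloc⟩ := hXA K N n w hX v.vs (fun c => by
    rw [DV.mem_vs, v.ord_base])
  have hloc' : ∀ y, InLoc p y → 0 ≤ v.ord y := fun y hy => hloc y hy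
  have h1p : (1 : chart w i) ∉ p := fun h => hp.ne_top ((Ideal.eq_top_iff_one p).2 h)
  have hnn : ∀ a ∈ chart w i, 0 ≤ v.ord a := by
    intro a ha
    exact hloc' a ⟨⟨a, ha⟩, 1, h1p, by simp⟩
  obtain ⟨F, hF, hdim⟩ := xg K N n w hX v hv i hi hnn
  -- elements of the local ring reduce to `F`
  have hredF : ∀ y, InLoc p y → v.red y ∈ F := by
    rintro y ⟨a, b, hb, rfl⟩
    have hb0 : (b : K) ≠ 0 := by
      intro h
      apply hb
      have : b = 0 := Subtype.ext h
      rw [this]; exact p.zero_mem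
    have h2 : 0 ≤ v.ord ((b : K)⁻¹) := hloc' _ ⟨1, b, hb, by simp⟩
    rw [v.ord_inv] at h2
    have h3 := hnn b b.2
    have h4 : v.ord (b : K) = 0 := by omega
    rw [v.red_div (hnn a a.2) h4]
    exact F.div_mem (hF a a.2) (hF b b.2)
  -- generators at `p`
  have hgen : ∀ j, ∃ (g : K) (u : v.Res), u ≠ 0 ∧ (S j).Nz ∧
      (∀ l, v.red ((S j).s l / g) ∈ F) ∧
      v.res (S j) = ((S j).map fun x => v.red (x / g)).map fun y => u * y := by
    intro j
    obtain ⟨D, hD⟩ := hS j
    obtain ⟨l0, hl0⟩ := hD.2 i hi p hp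
    have hmo : v.mo (S j) = v.ord ((S j).s l0) :=
      (hXL1 K N n w hX D (S j) i p ((S j).s l0) hD hi hp hl0).1 v hloc'
    obtain ⟨u, hu, hres⟩ := v.res_eq_scale (S j) hl0.1 hmo.symm
    refine ⟨(S j).s l0, u, hu, ⟨l0, hl0.1⟩, fun l => ?_, hres⟩
    by_cases hl : (S j).s l = 0
    · rw [hl, zero_div, v.red_zero]
      exact F.zero_mem
    · apply hredF
      apply hXF K N n w hX i p _ hi hp (div_ne_zero hl hl0.1)
      intro v' hv'
      rw [v'.1.ord_div hl hl0.1]
      have h5 := hl0.2 v' hv'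
      have h6 := hD.1 l v'
      rcases h6 with h6 | h6
      · exact absurd h6 hl
      · omega
  choose g u hu hNz hmem hres using hgen
  have hRNz : ∀ j, ((S j).map fun x => v.red (x / g j)).Nz := by
    intro j
    have h0 := v.res_nz (hNz j)
    rw [hres j] at h0
    obtain ⟨l, hl⟩ := h0
    exact ⟨l, right_ne_zero_of_mul hl⟩
  have hfun : (fun j => v.res (S j)) =
      fun j => ((S j).map fun x => v.red (x / g j)).map fun y => u j * y := funext hres
  rw [hfun, hG2s ℂ v.Res J (fun j => (S j).map fun x => v.red (x / g j)) u hRNz hu]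
  refine hIZ ℂ v.Res J F _ hRNz (fun j l => hmem j l) ?_
  have hn : (n : Cardinal) = (Fintype.card J : Cardinal) + 1 := by
    rw [← hJ]; push_cast; rfl
  rw [hn] at hdim
  have hfin : Algebra.trdeg ℂ F < Cardinal.aleph0 := by
    refine lt_of_le_of_lt ((self_le_add_right _ _).trans hdim) ?_
    exact_mod_cast Cardinal.natCast_lt_aleph0 (n := Fintype.card J + 1)
  obtain ⟨t, ht⟩ := Cardinal.lt_aleph0.1 hfin
  rw [ht] at hdim ⊢
  have h7 : t + 2 ≤ Fintype.card J + 1 := by exact_mod_cast hdim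
  have h8 : t < Fintype.card J := by omega
  exact_mod_cast h8

end Pool.Agent.H18.KN
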