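import Pool.Agent.H15.SC.TargetsX

/-!
The valuation of a prime element of a factorial ring (MP_f2954d_ag, module XU).
-/

namespace Pool.Agent.H18.KN

open SC

section

variable {O K : Type} [CommRing O] [IsDomain O] [UniqueFactorizationMonoid O] [Field K]
  [Algebra O K] [IsFractionRing O K]

theorem fin_mult {π : O} (hπ : Prime π) {a : O} (ha : a ≠ 0) : FiniteMultiplicity π a :=
  FiniteMultiplicity.of_not_isUnit hπ.not_isUnit ha

theorem mult_mul {π : O} (hπ : Prime π) {a b : O} (ha : a ≠ 0) (hb : b ≠ 0) :
    multiplicity π (a * b) = multiplicity π a + multiplicity π b :=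
  multiplicity_mul hπ (fin_mult hπ (mul_ne_zero ha hb))

open Classical in
/-- order of a quotient -/
noncomputable def ordF (O : Type) {K : Type} [CommRing O] [IsDomain O]
    [UniqueFactorizationMonoid O] [Field K] [Algebra O K] [IsFractionRing O K] (π : O) (x : K) :
    ℤ :=
  if x = 0 then 0 else
    (multiplicity π (IsFractionRing.div_surjective (A := O) x).choose : ℤ) -
      multiplicity π (IsFractionRing.div_surjective (A := O) x).choose_spec.choose

theorem ordF_div {π : O} (hπ : Prime π) {a b : O} (ha : a ≠ 0) (hb : b ≠ 0) :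
    ordF O π (algebraMap O K a / algebraMap O K b) = (multiplicity π a : ℤ) - multiplicity π b := by
  have hinj : Function.Injective (algebraMap O K) := IsFractionRing.injective O K
  have ha' : algebraMap O K a ≠ 0 := fun h => ha (hinj (by rw [h, map_zero]))
  have hb' : algebraMap O K b ≠ 0 := fun h => hb (hinj (by rw [h, map_zero]))
  unfold ordF
  rw [if_neg (div_ne_zero ha' hb')]
  set h := IsFractionRing.div_surjective (A := O) (algebraMap O K a / algebraMap O K b)
  obtain ⟨hc1, hc2⟩ := h.choose_spec.choose_spec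
  set c := h.choose
  set d := h.choose_spec.choose
  have hd : d ≠ 0 := nonZeroDivisors.ne_zero hc1
  have hd' : algebraMap O K d ≠ 0 := fun h => hd (hinj (by rw [h, map_zero]))
  have hc' : algebraMap O K c ≠ 0 := by
    intro h0
    rw [h0, zero_div] at hc2
    exact (div_ne_zero ha' hb') hc2.symm
  have hc : c ≠ 0 := fun h => hc' (by rw [h, map_zero])
  have he : c * b = a * d := by
    apply hinj
    rw [map_mul, map_mul]
    rwa [div_eq_div_iff hd' hb'] at hc2
  have h1 := mult_mul hπ hc hb
  have h2 := mult_mul hπ ha hd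
  rw [he, h2] at h1
  change (multiplicity π c : ℤ) - multiplicity π d = _
  omega

end

theorem xu : T_XU := by
  intro k O K _ _ _ _ _ _ _ _ _ _ π hπ
  have hinj : Function.Injective (algebraMap O K) := IsFractionRing.injective O K
  have hne : ∀ a : O, a ≠ 0 → algebraMap O K a ≠ 0 :=
    fun a ha h => ha (hinj (by rw [h, map_zero]))
  have h1 : ∀ a : O, a ≠ 0 → ordF O π (algebraMap O K a) = multiplicity π a := by
    intro a ha
    have := ordF_div (K := K) hπ ha (one_ne_zero (α := O))
    rw [map_one, div_one] at this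
    rw [this, multiplicity_of_one_right hπ.not_isUnit]
    simp
  have hrep : ∀ x : K, x ≠ 0 → ∃ a b : O, a ≠ 0 ∧ b ≠ 0 ∧
      x = algebraMap O K a / algebraMap O K b := by
    intro x hx
    obtain ⟨a, b, hb, rfl⟩ := IsFractionRing.div_surjective (A := O) x
    refine ⟨a, b, ?_, nonZeroDivisors.ne_zero hb, rfl⟩
    rintro rfl
    exact hx (by simp)
  have hsurj : ordF O π (algebraMap O K π) = 1 := by
    rw [h1 π hπ.ne_zero]
    have : multiplicity π π = 1 := multiplicity_self
    rw [this]; rfl
  refine ⟨⟨ordF O π, ?_, ?_, ?_, ?_, ⟨algebraMap O K π, hne π hπ.ne_zero, hsurj⟩⟩, ?_⟩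
  · unfold ordF
    rw [if_pos rfl]
  · intro x y hx hy
    obtain ⟨a, b, ha, hb, rfl⟩ := hrep x hx
    obtain ⟨c, d, hc, hd, rfl⟩ := hrep y hy
    rw [div_mul_div_comm, ← map_mul, ← map_mul, ordF_div hπ (mul_ne_zero ha hc)
      (mul_ne_zero hb hd), ordF_div hπ ha hb, ordF_div hπ hc hd, mult_mul hπ ha hc,
      mult_mul hπ hb hd]
    push_cast
    ring
  · intro x y hx hy hxy
    obtain ⟨a, b, ha, hb, rfl⟩ := hrep x hx
    obtain ⟨c, d, hc, hd, rfl⟩ := hrep y hy
    have hs : algebraMap O K a / algebraMap O K b + algebraMap O K c / algebraMap O K d =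
        algebraMap O K (a * d + b * c) / algebraMap O K (b * d) := by
      rw [div_add_div _ _ (hne b hb) (hne d hd)]
      simp only [map_add, map_mul]
    rw [hs] at hxy ⊢
    have hsum : a * d + b * c ≠ 0 := by
      intro h
      rw [h, map_zero, zero_div] at hxy
      exact hxy rfl
    rw [ordF_div hπ hsum (mul_ne_zero hb hd), ordF_div hπ ha hb, ordF_div hπ hc hd]
    have h2 : min (multiplicity π (a * d)) (multiplicity π (b * c)) ≤
        multiplicity π (a * d + b * c) := by
      apply (fin_mult hπ hsum).le_multiplicity_of_pow_dvd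
      apply dvd_add
      · exact (pow_dvd_pow π (min_le_left _ _)).trans (pow_multiplicity_dvd π (a * d))
      · exact (pow_dvd_pow π (min_le_right _ _)).trans (pow_multiplicity_dvd π (b * c))
    rw [mult_mul hπ ha hd, mult_mul hπ hb hc] at h2
    rw [mult_mul hπ hb hd]
    push_cast
    omega
  · intro c
    by_cases hc : c = 0
    · subst hc
      simp only [map_zero]
      unfold ordF
      rw [if_pos rfl]
    · rw [IsScalarTower.algebraMap_apply k O K]
      have hu : IsUnit (algebraMap k O c) := (IsUnit.mk0 c hc).map (algebraMap k O)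
      rw [h1 _ hu.ne_zero, multiplicity_of_isUnit_right hπ.not_isUnit hu]
      rfl
  · intro a m ha
    change (m : ℤ) ≤ ordF O π (algebraMap O K a) ↔ _
    rw [h1 a ha]
    rw [(fin_mult hπ ha).pow_dvd_iff_le_multiplicity]
    exact Nat.cast_le

end Pool.Agent.H18.KN
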