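import Pool.Agent.H93.SC.Targets2

/-!
Two successive generic sections form a generic section (MP_f2954d_ag, module G3).
-/

namespace Pool.Agent.H18.KN

open SC

theorem g3 : T_G3 := by
  intro K L M J J' _ _ _ _ _ _ _ _ _ S T U W hS hT hU hW
  refine ⟨?_, ?_, ?_⟩
  · rintro (j | j)
    · have h := congrArg (algebraMap L M) (hU.rel j)
      simp only [map_sum, map_mul, map_zero] at h
      refine Eq.trans ?_ h
      refine Finset.sum_congr rfl fun i _ => ?_
      rw [← IsScalarTower.algebraMap_apply K L M]
      rfl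
    · have h := hW.rel j
      refine Eq.trans ?_ h
      refine Finset.sum_congr rfl fun i _ => ?_
      rw [IsScalarTower.algebraMap_apply K L M]
      rfl
  · intro i0 hi0
    have h1 := hU.indep (fun j => i0 (Sum.inl j)) (fun j => hi0 (Sum.inl j))
    have h2 := hW.indep (fun j => i0 (Sum.inr j)) (fun j => by
      have := hi0 (Sum.inr j)
      simpa using this)
    have h3 := h1.sumElim_comp h2
    let e : {x : Var (Sum.elim S T) // x.2 ≠ i0 x.1} →
        {x : Var (fun j => (T j).up L) // x.2 ≠ i0 (Sum.inr x.1)} ⊕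
        {x : Var S // x.2 ≠ i0 (Sum.inl x.1)} := fun x => match x with
      | ⟨⟨Sum.inl j, i⟩, h⟩ => Sum.inr ⟨⟨j, i⟩, h⟩
      | ⟨⟨Sum.inr j, i⟩, h⟩ => Sum.inl ⟨⟨j, i⟩, h⟩
    have he : Function.Injective e := by
      rintro ⟨⟨j | j, i⟩, h⟩ ⟨⟨j' | j', i'⟩, h'⟩ hh
      · have hh' := Sum.inr_injective hh
        simp only [Subtype.mk.injEq, Sigma.mk.injEq] at hh' ⊢
        obtain ⟨rfl, hh2⟩ := hh'
        exact ⟨rfl, hh2⟩
      · exact absurd hh (by simp [e])
      · exact absurd hh (by simp [e])
      · have hh' := Sum.inl_injective hh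
        simp only [Subtype.mk.injEq, Sigma.mk.injEq] at hh' ⊢
        obtain ⟨rfl, hh2⟩ := hh'
        exact ⟨rfl, hh2⟩
    have h4 := h3.comp e he
    convert h4 using 1
    funext x
    rcases x with ⟨⟨j | j, i⟩, h⟩
    · rfl
    · rfl
  · have h1 := hU.gen
    have h2 := hW.gen
    set F := IntermediateField.adjoin K (Set.range (joinU S T U W)) with hF
    -- L maps to F
    have hLF : ∀ y : L, algebraMap L M y ∈ F := by
      intro y
      have hy : y ∈ IntermediateField.adjoin K (Set.range U) := by rw [h1]; trivial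
      have hsub : IntermediateField.adjoin K (Set.range U) ≤
          F.comap (IsScalarTower.toAlgHom K L M) := by
        rw [IntermediateField.adjoin_le_iff]
        rintro _ ⟨⟨j, i⟩, rfl⟩
        exact IntermediateField.subset_adjoin K _ ⟨⟨Sum.inl j, i⟩, rfl⟩
      exact hsub hy
    let F' : IntermediateField L M := 
      { F.toSubfield with algebraMap_mem' := fun y => hLF y }
    have hF' : F' = ⊤ := by
      rw [eq_top_iff, ← h2, IntermediateField.adjoin_le_iff]
      rintro _ ⟨⟨j, i⟩, rfl⟩
      exact IntermediateField.subset_adjoin K _ ⟨⟨Sum.inr j, i⟩, rfl⟩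
    rw [eq_top_iff]
    intro y _
    have : y ∈ F' := by rw [hF']; trivial
    exact this

end Pool.Agent.H18.KN
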