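import Pool.Agent.H80.SC.G2
import Pool.Agent.H18.KN.G3

/-!
The index computed in two steps (MP_f2954d_ag, module G3i).
-/

namespace Pool.Agent.H18.KN

open SC Set Pool.Agent.H80.SCG

section

variable {k L M V V' : Type} [Field k] [Field L] [Field M] [Algebra k L] [Algebra L M]
  [Algebra k M] [IsScalarTower k L M]

/-- independence over the field generated by a family in a smaller field -/
theorem indep_kU_iff (U : V → L) (W : V' → M) :
    AlgebraicIndependent (kU k U) W ↔
      AlgebraicIndependent (Algebra.adjoin k (range (algebraMap L M ∘ U))) W := by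
  have h1 : AlgebraicIndependent (kU k U) W ↔
      AlgebraicIndependent (Algebra.adjoin k (range U)) W :=
    IntermediateField.algebraicIndependent_adjoin_iff
  rw [h1]
  let φ : L →ₐ[k] M := IsScalarTower.toAlgHom k L M
  have hmap : (Algebra.adjoin k (range U)).map φ =
      Algebra.adjoin k (range (algebraMap L M ∘ U)) := by
    rw [AlgHom.map_adjoin, ← range_comp]
    rfl
  rw [← hmap]
  let e : Algebra.adjoin k (range U) ≃ₐ[k] (Algebra.adjoin k (range U)).map φ :=
    (Algebra.adjoin k (range U)).equivMapOfInjective φ (algebraMap L M).injective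
  exact (algebraicIndependent_ringHom_iff_of_comp_eq e (RingHom.id M)
    Function.injective_id (by ext x; rfl)).symm

/-- independence in two steps -/
theorem indep_two (U : V → L) (W : V' → M) :
    AlgebraicIndependent k (Sum.elim W (algebraMap L M ∘ U)) ↔
      AlgebraicIndependent k U ∧ AlgebraicIndependent (kU k U) W := by
  rw [AlgebraicIndependent.sumElim_iff, indep_kU_iff]
  have : AlgebraicIndependent k (algebraMap L M ∘ U) ↔ AlgebraicIndependent k U :=
    AlgHom.algebraicIndependent_iff (IsScalarTower.toAlgHom k L M) (algebraMap L M).injective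
  rw [this]

/-- the generated field in two steps -/
theorem mem_kU_two (U : V → L) (W : V' → M) (y : M) :
    y ∈ kU k (Sum.elim W (algebraMap L M ∘ U)) ↔ y ∈ kU (kU k U) W := by
  constructor
  · intro hy
    have : kU k (Sum.elim W (algebraMap L M ∘ U)) ≤ (kU (kU k U) W).restrictScalars k := by
      unfold kU
      rw [IntermediateField.adjoin_le_iff]
      rintro _ ⟨x | x, rfl⟩
      · exact IntermediateField.subset_adjoin _ _ ⟨x, rfl⟩
      · have := (kU (kU k U) W).algebraMap_mem
          ⟨U x, IntermediateField.subset_adjoin k _ ⟨x, rfl⟩⟩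
        exact this
    exact this hy
  · intro hy
    set F := kU k (Sum.elim W (algebraMap L M ∘ U)) with hF
    have h0 : ∀ z ∈ kU k U, algebraMap L M z ∈ F := by
      have hsub : kU k U ≤ F.comap (IsScalarTower.toAlgHom k L M) := by
        unfold kU
        rw [IntermediateField.adjoin_le_iff]
        rintro _ ⟨x, rfl⟩
        exact IntermediateField.subset_adjoin k _ ⟨Sum.inr x, rfl⟩
      intro z hz
      exact hsub hz
    let F' : IntermediateField (kU k U) M :=
      { F.toSubfield with algebraMap_mem' := fun z => h0 z.1 z.2 }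
    have hsub : kU (kU k U) W ≤ F' := by
      unfold kU
      rw [IntermediateField.adjoin_le_iff]
      rintro _ ⟨x, rfl⟩
      exact IntermediateField.subset_adjoin k _ ⟨Sum.inl x, rfl⟩
    exact hsub hy

/-- degrees only depend on the underlying set of the subfield -/
theorem finrank_of_mem_iff {k k' M : Type} [Field k] [Field k'] [Field M] [Algebra k M]
    [Algebra k' M] (F : IntermediateField k M) (F' : IntermediateField k' M)
    (h : ∀ y, y ∈ F ↔ y ∈ F') : Module.finrank F M = Module.finrank F' M := by
  let e : F ≃+* F' :=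
    { toFun := fun x => ⟨x.1, (h _).mp x.2⟩
      invFun := fun x => ⟨x.1, (h _).mpr x.2⟩
      left_inv := fun x => rfl
      right_inv := fun x => rfl
      map_mul' := fun x y => rfl
      map_add' := fun x y => rfl }
  exact Algebra.finrank_eq_of_equiv_equiv e (RingEquiv.refl M) (by ext z; rfl)

end

/-- the variables of two families of systems -/
def sumVar {K L J J' : Type} [Field K] [Field L] [Algebra K L] (S : J → Sys K) (T : J' → Sys K) :
    Var (Sum.elim S T) ≃ Var (fun j => (T j).up L) ⊕ Var S where
  toFun x := match x with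
    | ⟨Sum.inl j, i⟩ => Sum.inr ⟨j, i⟩
    | ⟨Sum.inr j, i⟩ => Sum.inl ⟨j, i⟩
  invFun x := match x with
    | Sum.inr ⟨j, i⟩ => ⟨Sum.inl j, i⟩
    | Sum.inl ⟨j, i⟩ => ⟨Sum.inr j, i⟩
  left_inv := by rintro ⟨j | j, i⟩ <;> rfl
  right_inv := by rintro (⟨j, i⟩ | ⟨j, i⟩) <;> rfl

theorem joinU_eq {K L M J J' : Type} [Field K] [Field L] [Field M] [Algebra K L] [Algebra L M]
    (S : J → Sys K) (T : J' → Sys K) (U : Var S → L) (W : Var (fun j => (T j).up L) → M) :
    joinU S T U W = Sum.elim W (algebraMap L M ∘ U) ∘ sumVar (L := L) S T := by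
  funext x
  rcases x with ⟨j | j, i⟩ <;> rfl

theorem indep_joinU {k K L M J J' : Type} [Field k] [Field K] [Field L] [Field M] [Algebra K L]
    [Algebra L M] [Algebra k L] [Algebra k M] [IsScalarTower k L M]
    (S : J → Sys K) (T : J' → Sys K) (U : Var S → L) (W : Var (fun j => (T j).up L) → M) :
    AlgebraicIndependent k (joinU S T U W) ↔
      AlgebraicIndependent k U ∧ AlgebraicIndependent (kU k U) W := by
  rw [joinU_eq, ← indep_two]
  exact algebraicIndependent_equiv (sumVar (L := L) S T)

theorem finrank_joinU {k K L M J J' : Type} [Field k] [Field K] [Field L] [Field M] [Algebra K L]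
    [Algebra L M] [Algebra k L] [Algebra k M] [IsScalarTower k L M]
    (S : J → Sys K) (T : J' → Sys K) (U : Var S → L) (W : Var (fun j => (T j).up L) → M) :
    Module.finrank (kU k (joinU S T U W)) M = Module.finrank (kU (kU k U) W) M := by
  refine finrank_of_mem_iff _ _ fun y => ?_
  rw [← mem_kU_two]
  have : kU k (joinU S T U W) = kU k (Sum.elim W (algebraMap L M ∘ U)) := by
    unfold kU
    rw [joinU_eq]
    congr 1
    exact (sumVar (L := L) S T).surjective.range_comp _
  rw [this]

theorem g3i : T_G3i := by
  intro k K L J J' _ _ _ _ _ _ _ _ _ S T U hS hT hU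
  have hT' : ∀ j, ((T j).up L).Nz := by
    intro j
    obtain ⟨i, hi⟩ := hT j
    exact ⟨i, by simpa using hi⟩
  set T' : J' → Sys L := fun j => (T j).up L with hT'def
  have hW : IsGen T' (genU T') := g1a L J' T' hT'
  have hUW := g3 K L (Gen T') J J' S T U (genU T') hS hT hU hW
  have hST : ∀ j, (Sum.elim S T j).Nz := by
    rintro (j | j)
    · exact hS j
    · exact hT j
  obtain ⟨h1, h2⟩ := g2 k K (J ⊕ J') (Gen T') (Sum.elim S T) (joinU S T U (genU T')) hST hUW
  obtain ⟨h3, h4⟩ := g2 (kU k U) L J' (Gen T') T' (genU T') hT' hW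
  constructor
  · intro hind
    by_cases hW2 : AlgebraicIndependent (kU k U) (genU T')
    · rw [h1 ((indep_joinU S T U (genU T')).mpr ⟨hind, hW2⟩), h3 hW2, finrank_joinU]
    · rw [h2 (fun h => hW2 ((indep_joinU S T U (genU T')).mp h).2), h4 hW2]
  · intro hind
    exact h2 (fun h => hind ((indep_joinU S T U (genU T')).mp h).1)

end Pool.Agent.H18.KN
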