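import Pool.Agent.H80.SC.G1

/-!
Transcendence degree and finiteness of a generic section (MP_f2954d_ag, module G3t).
-/

namespace Pool.Agent.H18.KN

open SC Set Pool.Agent.H80.SCG

/-- an independent generating family of a field extension is a transcendence basis -/
theorem isTB_of_top {F E ι : Type} [Field F] [Field E] [Algebra F E] (x : ι → E)
    (hx : AlgebraicIndependent F x) (h : IntermediateField.adjoin F (range x) = ⊤) :
    IsTranscendenceBasis F x := by
  rw [hx.isTranscendenceBasis_iff_isAlgebraic]
  exact isAlgebraic_of_top _ h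

/-- the transcendence degree of the field generated by an independent family -/
theorem trdeg_kU {k L V : Type} [Field k] [Field L] [Algebra k L] (U : V → L)
    (hU : AlgebraicIndependent k U) : Algebra.trdeg k (kU k U) = Cardinal.mk V := by
  let U' : V → kU k U := fun x => ⟨U x, IntermediateField.subset_adjoin k _ ⟨x, rfl⟩⟩
  have h1 : AlgebraicIndependent k U' := 
    AlgebraicIndependent.of_comp (kU k U).val hU
  have h2 : IntermediateField.adjoin k (range U') = ⊤ := by
    rw [eq_top_iff]
    rintro ⟨y, hy⟩ -
    have h3 : (IntermediateField.adjoin k (range U')).map (kU k U).val = kU k U := by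
      rw [IntermediateField.adjoin_map]
      congr 1
      rw [← range_comp]
      rfl
    have h4 : y ∈ (IntermediateField.adjoin k (range U')).map (kU k U).val := by
      rw [h3]; exact hy
    obtain ⟨z, hz, hz'⟩ := h4
    have : z = ⟨y, hy⟩ := Subtype.ext hz'
    rw [← this]
    exact hz
  exact (isTB_of_top U' h1 h2).cardinalMk_eq_trdeg.symm

theorem g3t : T_G3t := by
  intro k K L J _ _ _ _ _ _ _ _ _ S U n hS hU hind hn
  have hEK : Algebra.EssFiniteType K L := by
    rw [← IntermediateField.fg_top_iff, ← hU.gen]
    have : Finite (Var S) := inferInstance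
    exact IntermediateField.fg_adjoin_of_finite (finite_range U)
  have hEk : Algebra.EssFiniteType k L := Algebra.EssFiniteType.comp k K L
  have hE : Algebra.EssFiniteType (kU k U) L := Algebra.EssFiniteType.of_comp k (kU k U) L
  choose i0 h0 using hS
  have hTB : IsTranscendenceBasis K (fun x : {x : Var S // x.2 ≠ i0 x.1} => U x.1) :=
    isTB_of_top _ (hU.indep i0 h0) (adjoin_pivot i0 h0 hU.rel hU.gen)
  have e1 : Algebra.trdeg K L = Cardinal.mk {x : Var S // x.2 ≠ i0 x.1} :=
    hTB.cardinalMk_eq_trdeg.symm
  have e2 : Algebra.trdeg k K + Algebra.trdeg K L = Algebra.trdeg k L :=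
    trdeg_add_eq k K
  have e3 : Algebra.trdeg k (kU k U) + Algebra.trdeg (kU k U) L = Algebra.trdeg k L :=
    trdeg_add_eq k (kU k U)
  have e4 := trdeg_kU U hind
  have e5 : Nat.card (Var S) = Nat.card {x : Var S // x.2 ≠ i0 x.1} + Fintype.card J := by
    classical
    let e : Var S ≃ {x : Var S // x.2 ≠ i0 x.1} ⊕ J :=
      { toFun := fun x => if h : x.2 = i0 x.1 then Sum.inr x.1 else Sum.inl ⟨x, h⟩
        invFun := fun y => match y with
          | Sum.inl x => x.1
          | Sum.inr j => ⟨j, i0 j⟩
        left_inv := by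
          rintro ⟨j, i⟩
          by_cases h : i = i0 j
          · subst h; simp
          · simp [h]
        right_inv := by
          rintro (⟨x, h⟩ | j)
          · simp [h]
          · simp }
    rw [Nat.card_congr e, Nat.card_sum, Nat.card_eq_fintype_card (α := J)]
  have e6 : Cardinal.mk (Var S) = (Nat.card (Var S) : ℕ) := (Nat.cast_card).symm
  have e7 : Cardinal.mk {x : Var S // x.2 ≠ i0 x.1} = 
    (Nat.card {x : Var S // x.2 ≠ i0 x.1} : ℕ) := (Nat.cast_card).symm
  rw [e4, e6, ← e2, hn, e1, e7] at e3
  set a := Nat.card {x : Var S // x.2 ≠ i0 x.1}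
  set t := Algebra.trdeg (kU k U) L with ht
  have hfin : t < Cardinal.aleph0 := by
    have h5 : t ≤ ((n + a : ℕ) : Cardinal) := by
      calc t ≤ (Nat.card (Var S) : Cardinal) + t := self_le_add_left _ _
        _ = ((n + a : ℕ) : Cardinal) := by rw [e3]; push_cast; rfl
    exact h5.trans_lt (Cardinal.natCast_lt_aleph0)
  obtain ⟨t', ht'⟩ := Cardinal.lt_aleph0.mp hfin
  rw [ht', e5] at e3
  have e8 : a + Fintype.card J + t' = n + a := by exact_mod_cast e3
  refine ⟨hE, by omega, ?_⟩
  rw [ht']
  congr 1
  omega

end Pool.Agent.H18.KN
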